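import Pool.Agent.R871.SG.SidA

/-!
MP_e120ef_ag, Q1: (formal or analytic) curves over any field whose exponents form a `B_d`-set.
-/

set_option autoImplicit false

namespace Pool.Agent.Results.MP_e120ef_ag.BdExponents

open Pool.Agent.R871.SG.LF MvPolynomial

/-- Let `K` be a field, let `X = {F = 0} ⊆ ℙ^(s-1)` be given by homogeneous polynomials over `K` of
degrees at most `d`, and let `f` be a vector of power series over `K` which satisfies the equations of
`X` and whose exponents are in a `B_d`-set `E`: two different multisets of the same size, at most `d`, of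
elements of `E` have different sums. Then `X` contains the linear subspace spanned by all coefficient
vectors of `f`. -/
theorem result {K : Type} [Field K] {s d : ℕ} {f : Fin s → PowerSeries K} {E : Set ℕ}
    (hE : SumsDistinct d E) (hf : ∀ m, m ∉ E → ∀ i, PowerSeries.coeff m (f i) = 0) {ι : Type}
    (F : ι → MvPolynomial (Fin s) K) (hF : ∀ i, ∃ e ≤ d, (F i).IsHomogeneous e)
    (h : ∀ i, aeval f (F i) = 0) :
    ∀ v ∈ Submodule.span K (Set.range fun m => cv f m), ∀ i, eval v (F i) = 0 := by
  classical
  intro v hv i
  obtain ⟨e, hed, he⟩ := hF i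
  obtain ⟨c, hc⟩ := (Finsupp.mem_span_range_iff_exists_finsupp).1 hv
  have h1 : ∑ j ∈ Finset.range (c.support.sup id + 1), c j • cv f j = v := by
    rw [← hc, Finsupp.sum]
    refine (Finset.sum_subset (fun j hj => ?_) fun j _ hj => ?_).symm
    · have : j ≤ c.support.sup id := Finset.le_sup (f := id) hj
      exact Finset.mem_range.2 (by omega)
    · rw [Finsupp.notMem_support_iff.1 hj, zero_smul]
  have h2 := sidon_span hE hf he hed (h i) (c.support.sup id) c
  rwa [h1] at h2

end Pool.Agent.Results.MP_e120ef_ag.BdExponents
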