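import Pool.Agent.R871.SG.LacG

/-!
MP_e120ef_ag, Q1: Zariski closures of lacunary (formal or analytic) curves over any infinite field.
-/

set_option autoImplicit false

namespace Pool.Agent.Results.MP_e120ef_ag.LacunaryCurves

open Pool.Agent.R871.SG.LF MvPolynomial

/-- Let `K` be an infinite field, `f` a vector of power series over `K`, and let `n 0, n 1, …` be
exponents with `n (j + 1) > d * n j`, `d ≥ 1`, such that all coefficient vectors of `f` with index
`m > n 0` vanish, except for those with `m = n j` for some `j`. Let `P` be the partial sum of `f` up to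
`z ^ (n 0)`, and let `L` be the subspace of `K^s` spanned by the coefficient vectors with the indices
`n j`, `j ≥ 1`. Then `f` satisfies the equations `F i`, of degree at most `d`, of a closed subvariety
`X = {F = 0}` if and only if all points `P(z) + v`, `z ∈ K`, `v ∈ L`, are in `X`. -/
theorem result {K : Type} [Field K] [Infinite K] {s d : ℕ} (hd : 0 < d) {f : Fin s → PowerSeries K}
    {n : ℕ → ℕ} (hn : Lacunary d n f) {ι : Type} (F : ι → MvPolynomial (Fin s) K)
    (hF : ∀ i, (F i).totalDegree ≤ d) :
    (∀ i, aeval f (F i) = 0) ↔
      ∀ z : K, ∀ v ∈ Submodule.span K (Set.range fun j => cv f (n (j + 1))), ∀ i,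
        eval ((fun k => (tr f (n 0) k).eval z) + v) (F i) = 0 :=
  ⟨fun h z v hv i => (lacunary_iff hd hn (hF i)).1 (h i) z v hv,
    fun h i => (lacunary_iff hd hn (hF i)).2 fun z v hv => h z v hv i⟩

end Pool.Agent.Results.MP_e120ef_ag.LacunaryCurves
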